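import Pool.Agent.Helper45.CF.GoalsB
import Pool.Agent.Helper52.CAR.PAD

/-!
# Project CF (MP_d97caa_an), packet PADO: doubling a step by copies of the character
-/

set_option autoImplicit false

open scoped ComplexOrder

namespace Pool.Agent.Helper89.CF.PADO

open Pool.Agent.Helper34.CAR Pool.Agent.Helper39.Uct Pool.Agent.Helper45.CF
  Pool.Agent.Helper52.CAR

theorem t : S_PADO := by
  intro B _ θ χ F ε C _ _ c0 c1 K w hε hK
  obtain ⟨h01, hw1, hw2, h0, h1, hoff, hsc, happ⟩ := hK
  let K2 : B →⋆ₐ[ℂ] Mt C B := (StarAlgHom.ofId ℂ (Mt C B)).comp χ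
  have hK2 : ∀ b, K2 b = algebraMap ℂ (Mt C B) (χ b) := fun b => rfl
  let K' : B →⋆ₐ[ℂ] Mt (C ⊕ C) B := bs.comp (K.prod K2)
  have hK' : ∀ b, K' b = bsf (K b) (K2 b) := fun b => rfl
  refine ⟨K', bs (w, 1), ⟨?_, ?_, ?_, ?_, ?_, ?_, ?_, ?_⟩, ?_, ?_, ?_, ?_⟩
  · exact fun h => h01 (Sum.inl.inj h)
  · rw [← map_star, ← map_mul]
    have : star (w, (1 : Mt C B)) * (w, (1 : Mt C B)) = 1 := by
      rw [Prod.star_def, Prod.mk_mul_mk, star_one, one_mul, hw1]
      rfl
    rw [this, map_one]
  · rw [← map_star, ← map_mul]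
    have : (w, (1 : Mt C B)) * star (w, (1 : Mt C B)) = 1 := by
      rw [Prod.star_def, Prod.mk_mul_mk, star_one, one_mul, hw2]
      rfl
    rw [this, map_one]
  · intro b
    rw [hK', bsf_ll, h0]
  · intro b
    rw [hK', bsf_ll, h1]
  · intro b x y hxy h
    rw [hK']
    rcases x with i | p
    · rcases y with j | q
      · rw [bsf_ll]
        refine hoff b i j (fun e => hxy (by rw [e])) ?_
        rcases h with h | h | h | h
        · exact Or.inl (Sum.inl.inj h)
        · exact Or.inr (Or.inl (Sum.inl.inj h))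
        · exact Or.inr (Or.inr (Or.inl (Sum.inl.inj h)))
        · exact Or.inr (Or.inr (Or.inr (Sum.inl.inj h)))
      · rfl
    · rcases y with j | q
      · rfl
      · rcases h with h | h | h | h <;> cases h
  · intro b x y hx0 hx1 hy0 hy1
    rw [hK']
    rcases x with i | p
    · rcases y with j | q
      · rw [bsf_ll]
        exact hsc b i j (fun e => hx0 (by rw [e])) (fun e => hx1 (by rw [e]))
          (fun e => hy0 (by rw [e])) (fun e => hy1 (by rw [e]))
      · exact ⟨0, by rw [bsf_lr, map_zero]⟩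
    · rcases y with j | q
      · exact ⟨0, by rw [bsf_rl, map_zero]⟩
      · rw [bsf_rr, hK2, Mt.algebraMap_apply]
        by_cases hpq : p = q
        · exact ⟨χ b, by rw [if_pos hpq]⟩
        · exact ⟨0, by rw [if_neg hpq, map_zero]⟩
  · intro b hb
    obtain ⟨x, hx⟩ := happ b hb
    refine ⟨fun s t => Sum.elim (fun i => Sum.elim (fun j => x i j) (fun _ => 0) t)
      (fun p => Sum.elim (fun _ => 0) (fun q => if p = q then χ b else 0) t) s, ?_⟩
    have hscal : (Mt.scal (fun s t => Sum.elim (fun i => Sum.elim (fun j => x i j) (fun _ => 0) t)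
        (fun p => Sum.elim (fun _ => 0) (fun q => if p = q then χ b else 0) t) s) :
        Mt (C ⊕ C) B) = bs (Mt.scal x, K2 b) := by
      rw [bs_apply]
      ext s t
      rcases s with i | p <;> rcases t with j | q
      · rfl
      · simp
      · simp
      · rw [Mt.scal_apply, bsf_rr, hK2, Mt.algebraMap_apply]
        show algebraMap ℂ B (if p = q then χ b else 0) = _
        split_ifs
        · rfl
        · exact map_zero _
    rw [hscal]
    have hdiff : K' b - star (bs (w, (1 : Mt C B))) * bs (Mt.scal x, K2 b) * bs (w, 1) =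
        bs (K b - star w * Mt.scal x * w, 0) := by
      have e1 : K' b = bs (K b, K2 b) := rfl
      rw [e1, ← map_star, ← map_mul, ← map_mul, ← map_sub]
      congr 1
      rw [Prod.star_def, Prod.mk_mul_mk, Prod.mk_mul_mk, Prod.mk_sub_mk, star_one, one_mul,
        mul_one, sub_self]
    rw [hdiff]
    refine lt_of_le_of_lt (NonUnitalStarAlgHom.norm_apply_le bs _) ?_
    rw [Prod.norm_def, norm_zero]
    exact max_lt hx hε
  · exact Sum.inr_ne_inl
  · exact Sum.inr_ne_inl
  · intro b
    rw [hK', bsf_rr, hK2, Mt.algebraMap_apply, if_pos rfl]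
  · intro b x hx
    rw [hK']
    rcases x with i | p
    · exact ⟨rfl, rfl⟩
    · have hp : p ≠ c0 := fun e => hx (by rw [e])
      rw [bsf_rr, bsf_rr, hK2, Mt.algebraMap_apply, Mt.algebraMap_apply, if_neg (Ne.symm hp),
        if_neg hp]
      exact ⟨rfl, rfl⟩

end Pool.Agent.Helper89.CF.PADO
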