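import Pool.Agent.Helper55.CF.Goals

/-!
# Packet 2240: the moment relation
-/

open MeasureTheory Complex
open scoped ContDiff ComplexConjugate

noncomputable section
namespace Helper89CF
open CF55

theorem contDiff_eval (u : MvPolynomial (Fin 5) ℂ) :
    ContDiff ℝ ∞ (fun x : X5 => MvPolynomial.eval x u) := by
  induction u using MvPolynomial.induction_on with
  | C a => simp only [MvPolynomial.eval_C]; exact contDiff_const
  | add p q hp hq => simp only [map_add]; exact hp.add hq
  | mul_X p i hp =>
      simp only [map_mul, MvPolynomial.eval_X]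
      exact hp.mul (contDiff_apply ℝ ℂ i)

theorem contDiff_conj' {f : X5 → ℂ} (hf : ContDiff ℝ ∞ f) :
    ContDiff ℝ ∞ (fun x => conj (f x)) := by
  exact (Complex.conjCLE : ℂ ≃L[ℝ] ℂ).contDiff.comp hf

theorem test_conj {U : Set X5} {ψ : X5 → ℂ} (h : Test U ψ) : Test U (fun x => conj (ψ x)) := by
  obtain ⟨h1, h2, h3⟩ := h
  have hs : tsupport (fun x => conj (ψ x)) = tsupport ψ := by
    unfold tsupport
    congr 1
    ext x
    simp [Function.mem_support]
  refine ⟨contDiff_conj' h1, ?_, ?_⟩
  · unfold HasCompactSupport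
    rw [hs]; exact h2
  · rw [hs]; exact h3

theorem test_zero (U : Set X5) : Test U (fun _ => (0 : ℂ)) := by
  refine ⟨contDiff_const, HasCompactSupport.zero, ?_⟩
  have : tsupport (fun _ : X5 => (0 : ℂ)) = ∅ := by
    rw [tsupport_eq_empty_iff]; rfl
  rw [this]; exact Set.empty_subset _

theorem test_add {U : Set X5} {ψ φ : X5 → ℂ} (h : Test U ψ) (h' : Test U φ) :
    Test U (fun x => ψ x + φ x) := by
  refine ⟨h.1.add h'.1, h.2.1.add h'.2.1, ?_⟩
  exact (tsupport_add ψ φ).trans (Set.union_subset h.2.2 h'.2.2)

theorem test_sum {ι : Type} {U : Set X5} (s : Finset ι) (ψ : ι → X5 → ℂ)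
    (h : ∀ i ∈ s, Test U (ψ i)) : Test U (fun x => ∑ i ∈ s, ψ i x) := by
  classical
  induction s using Finset.induction_on with
  | empty => simpa using test_zero U
  | insert a s ha ih =>
      have h1 := test_add (h a (Finset.mem_insert_self a s))
        (ih (fun i hi => h i (Finset.mem_insert_of_mem hi)))
      simpa [Finset.sum_insert ha] using h1

theorem test_ite {U : Set X5} {ψ : X5 → ℂ} (c : Prop) [Decidable c] (h : Test U ψ) :
    Test U (fun x => if c then ψ x else 0) := by
  by_cases hc : c
  · simpa [hc] using h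
  · simpa [hc] using test_zero U

/-- division by a function which does not vanish on the open set `U` -/
theorem test_div {u : MvPolynomial (Fin 5) ℂ} {ψ : X5 → ℂ}
    (h : Test {x | MvPolynomial.eval x u ≠ 0} ψ) :
    Test {x | MvPolynomial.eval x u ≠ 0}
      (fun x => ψ x / (MvPolynomial.eval x u * conj (MvPolynomial.eval x u))) := by
  obtain ⟨h1, h2, h3⟩ := h
  have hsub : Function.support
      (fun x => ψ x / (MvPolynomial.eval x u * conj (MvPolynomial.eval x u))) ⊆
      Function.support ψ := by
    intro x hx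
    rw [Function.mem_support] at hx ⊢
    intro h0
    apply hx
    simp [h0]
  refine ⟨?_, h2.mono hsub, (closure_mono hsub).trans h3⟩
  rw [contDiff_iff_contDiffAt]
  intro x
  by_cases hx : x ∈ tsupport ψ
  · have hu : MvPolynomial.eval x u ≠ 0 := h3 hx
    simp only [div_eq_mul_inv]
    refine ContDiffAt.mul h1.contDiffAt (ContDiffAt.inv
      ((contDiff_eval u).mul (contDiff_conj' (contDiff_eval u))).contDiffAt ?_)
    exact mul_ne_zero hu ((map_ne_zero _).mpr hu)
  · have he : (fun x => ψ x / (MvPolynomial.eval x u * conj (MvPolynomial.eval x u)))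
        =ᶠ[nhds x] fun _ => (0 : ℂ) := by
      have := notMem_tsupport_iff_eventuallyEq.mp hx
      filter_upwards [this] with y hy
      simp [hy]
    exact contDiffAt_const.congr_of_eventuallyEq he

theorem test_cont {U : Set X5} {ψ : X5 → ℂ} (h : Test U ψ) : Continuous ψ := h.1.continuous

theorem integrable_mul {U : Set X5} {ψ : X5 → ℂ} (h : Test U ψ) {f : X5 → ℂ}
    (hf : Continuous f) : Integrable (fun x => f x * ψ x) := by
  apply (hf.mul h.1.continuous).integrable_of_hasCompactSupport
  exact h.2.1.mul_left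

/-- two adjunctions -/
theorem two_adj (hADJ : G_ADJ) {U : Set X5} {ψ1 : X5 → ℂ} (h1 : Test U ψ1)
    {P Q : Module.End ℂ (MvPolynomial (Fin 5) ℂ)} (hP : P ∈ weyl 5) (hQ : Q ∈ weyl 5) :
    ∃ φ : X5 → ℂ, Test U φ ∧ ∀ g : MvPolynomial (Fin 5) ℂ,
      ∫ x, MvPolynomial.eval x (P g) * conj (MvPolynomial.eval x (Q g)) * ψ1 x =
        ∫ x, MvPolynomial.eval x g * conj (MvPolynomial.eval x g) * φ x := by
  obtain ⟨ψ2, h2, e2⟩ := hADJ P hP U ψ1 h1
  obtain ⟨ψ3, h3, e3⟩ := hADJ Q hQ U (fun x => conj (ψ2 x)) (test_conj h2)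
  refine ⟨fun x => conj (ψ3 x), test_conj h3, fun g => ?_⟩
  rw [e2 g (Q g)]
  have e := congrArg (starRingEnd ℂ) (e3 g g)
  rw [← integral_conj, ← integral_conj] at e
  calc ∫ x, MvPolynomial.eval x g * conj (MvPolynomial.eval x (Q g)) * ψ2 x
      = ∫ x, conj (MvPolynomial.eval x (Q g) * conj (MvPolynomial.eval x g) * conj (ψ2 x)) := by
        congr 1; funext x; simp only [map_mul, Complex.conj_conj]; ring
    _ = ∫ x, conj (MvPolynomial.eval x g * conj (MvPolynomial.eval x g) * ψ3 x) := e
    _ = _ := by
        congr 1; funext x; simp only [map_mul, Complex.conj_conj]; ring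

theorem mu_eq (p : MvPolynomial (Fin 5) ℂ) (ψ : X5 → ℂ) (k : ℕ) :
    mu p ψ k = ∫ x, MvPolynomial.eval x (p ^ k) * conj (MvPolynomial.eval x (p ^ k)) * ψ x := by
  unfold mu
  congr 1
  funext x
  congr 1
  rw [Complex.mul_conj, map_pow, Complex.normSq_eq_norm_sq, norm_pow]
  push_cast
  ring

/-- The moment relation. -/
theorem stmtMOM (hADJ : G_ADJ) (hEX : G_EXTRA) : G_MOM := by
  classical
  intro p hp
  obtain ⟨b, hb0, hroots, u, hu0, m, P, hP, hfe⟩ := hp
  have hu : u ≠ 0 := fun h => hu0 (by rw [h]; exact map_zero _)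
  have hp0 : p ≠ 0 := by
    intro h
    have h0 := hfe 0
    rw [h] at h0
    simp only [Nat.cast_zero, pow_zero, mul_one, zero_add, pow_one, map_zero, smul_zero,
      Finset.sum_const_zero, Polynomial.eval_mul, Polynomial.eval_add, Polynomial.eval_X,
      Polynomial.eval_one, zero_add, one_mul] at h0
    rcases mul_eq_zero.mp h0 with h1 | h1
    · have h2 : b.eval 0 = 0 := by
        rwa [MvPolynomial.C_eq_zero] at h1
      have := hroots 0 h2
      simp at this
      linarith
    · exact hu h1
  refine ⟨u, b, hu0, hb0, hroots, fun ψ hψ => ?_⟩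
  set U : Set X5 := {x | MvPolynomial.eval x u ≠ 0} with hU
  set ψ1 : X5 → ℂ := fun x => ψ x / (MvPolynomial.eval x u * conj (MvPolynomial.eval x u))
    with hψ1
  have t1 : Test U ψ1 := test_div hψ
  have hch : ∀ i j : ℕ, ∃ φ : X5 → ℂ, Test U φ ∧ ∀ g : MvPolynomial (Fin 5) ℂ,
      ∫ x, MvPolynomial.eval x (P i g) * conj (MvPolynomial.eval x (P j g)) * ψ1 x =
        ∫ x, MvPolynomial.eval x g * conj (MvPolynomial.eval x g) * φ x :=
    fun i j => two_adj hADJ t1 (hP i) (hP j)
  choose φ tφ hφ using hch
  set ψs : ℕ → X5 → ℂ := fun l x => ∑ i ∈ Finset.range m, ∑ j ∈ Finset.range m,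
    if i + j = l then φ i j x else 0 with hψs
  have tψs : ∀ l, Test U (ψs l) := by
    intro l
    refine test_sum _ _ (fun i _ => ?_)
    refine test_sum _ _ (fun j _ => ?_)
    exact test_ite _ (tφ i j)
  -- the key identity
  have key : ∀ z : ℂ, conj z = z → ∀ g : MvPolynomial (Fin 5) ℂ,
      ∑ l ∈ Finset.range (2 * m), z ^ l *
        ∫ x, MvPolynomial.eval x g * conj (MvPolynomial.eval x g) * ψs l x =
      ∫ x, MvPolynomial.eval x (∑ j ∈ Finset.range m, z ^ j • P j g) *
        conj (MvPolynomial.eval x (∑ j ∈ Finset.range m, z ^ j • P j g)) * ψ1 x := by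
    intro z hz g
    have hcg : ∀ q : MvPolynomial (Fin 5) ℂ, Continuous fun x : X5 => MvPolynomial.eval x q :=
      fun q => (contDiff_eval q).continuous
    have hcc : ∀ q : MvPolynomial (Fin 5) ℂ,
        Continuous fun x : X5 => conj (MvPolynomial.eval x q) :=
      fun q => (contDiff_conj' (contDiff_eval q)).continuous
    -- left side
    have hL : ∀ l, ∫ x, MvPolynomial.eval x g * conj (MvPolynomial.eval x g) * ψs l x =
        ∑ i ∈ Finset.range m, ∑ j ∈ Finset.range m, if i + j = l then
          ∫ x, MvPolynomial.eval x (P i g) * conj (MvPolynomial.eval x (P j g)) * ψ1 x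
          else 0 := by
      intro l
      have hx : (fun x => MvPolynomial.eval x g * conj (MvPolynomial.eval x g) * ψs l x) =
          fun x => ∑ i ∈ Finset.range m, ∑ j ∈ Finset.range m,
            (MvPolynomial.eval x g * conj (MvPolynomial.eval x g)) *
              (if i + j = l then φ i j x else 0) := by
        funext x
        simp only [hψs, Finset.mul_sum]
      rw [hx, integral_finsetSum]
      · refine Finset.sum_congr rfl fun i _ => ?_
        rw [integral_finsetSum]
        · refine Finset.sum_congr rfl fun j _ => ?_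
          by_cases hij : i + j = l
          · simp only [hij, if_true]
            exact (hφ i j g).symm
          · simp [hij]
        · intro j _
          exact integrable_mul (test_ite _ (tφ i j)) ((hcg g).mul (hcc g))
      · intro i _
        refine integrable_finsetSum _ fun j _ => ?_
        exact integrable_mul (test_ite _ (tφ i j)) ((hcg g).mul (hcc g))
    -- right side
    have hR : ∫ x, MvPolynomial.eval x (∑ j ∈ Finset.range m, z ^ j • P j g) *
        conj (MvPolynomial.eval x (∑ j ∈ Finset.range m, z ^ j • P j g)) * ψ1 x =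
        ∑ i ∈ Finset.range m, ∑ j ∈ Finset.range m, z ^ (i + j) *
          ∫ x, MvPolynomial.eval x (P i g) * conj (MvPolynomial.eval x (P j g)) * ψ1 x := by
      have hx : (fun x => MvPolynomial.eval x (∑ j ∈ Finset.range m, z ^ j • P j g) *
          conj (MvPolynomial.eval x (∑ j ∈ Finset.range m, z ^ j • P j g)) * ψ1 x) =
          fun x => ∑ i ∈ Finset.range m, ∑ j ∈ Finset.range m, z ^ (i + j) *
            (MvPolynomial.eval x (P i g) * conj (MvPolynomial.eval x (P j g)) * ψ1 x) := by
        funext x
        simp only [map_sum, MvPolynomial.smul_eval, map_mul, map_pow, hz]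
        rw [Finset.sum_mul_sum, Finset.sum_mul]
        refine Finset.sum_congr rfl fun i _ => ?_
        rw [Finset.sum_mul]
        refine Finset.sum_congr rfl fun j _ => ?_
        rw [pow_add]; ring
      rw [hx, integral_finsetSum]
      · refine Finset.sum_congr rfl fun i _ => ?_
        rw [integral_finsetSum]
        · refine Finset.sum_congr rfl fun j _ => ?_
          rw [integral_const_mul]
        · intro j _
          exact (integrable_mul t1 ((hcg _).mul (hcc _))).const_mul _
      · intro i _
        refine integrable_finsetSum _ fun j _ => ?_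
        exact (integrable_mul t1 ((hcg _).mul (hcc _))).const_mul _
    rw [hR]
    simp only [hL, Finset.mul_sum]
    rw [Finset.sum_comm]
    refine Finset.sum_congr rfl fun i hi => ?_
    rw [Finset.sum_comm]
    refine Finset.sum_congr rfl fun j hj => ?_
    rw [Finset.sum_eq_single (i + j)]
    · simp
    · intro l _ hl
      rw [if_neg (fun h => hl h.symm), mul_zero]
    · intro h
      exfalso
      apply h
      rw [Finset.mem_range] at hi hj ⊢
      omega
  refine ⟨2 * m, ψs, tψs, fun k => ?_, ?_⟩
  · have h1 := key (k : ℂ) (by simp) (p ^ (k + 1))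
    simp only [mu_eq]
    rw [h1, ← hfe k, ← integral_const_mul]
    congr 1
    funext x
    simp only [map_mul, map_pow, MvPolynomial.eval_C, Polynomial.eval_mul, Polynomial.eval_add,
      Polynomial.eval_X, Polynomial.eval_one, map_add, map_one, map_natCast, hψ1]
    by_cases hx : MvPolynomial.eval x u = 0
    · have h0 : ψ x = 0 := by
        by_contra hne
        have : x ∈ tsupport ψ := subset_tsupport ψ hne
        exact (hψ.2.2 this) hx
      simp [h0]
    · have hx' : conj (MvPolynomial.eval x u) ≠ 0 := (map_ne_zero _).mpr hx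
      field_simp
  · have h1 := key (-1) (by simp) 1
    have h2 : ∑ j ∈ Finset.range m, (-1 : ℂ) ^ j • P j 1 = 0 := by
      apply hEX p u ((Polynomial.X + 1) * b) m P hP hp0 _ hfe
      simp
    rw [h2] at h1
    simp only [mu_eq, pow_zero]
    rw [h1]
    simp

end Helper89CF
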